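import Mathlib

set_option autoImplicit false

open Set

namespace Pool.Agent.Results.MP_af603d_lc.TimesRationals

universe u

/-- `L` has a weakly order preserving surjection onto each of its nonempty suborders. -/
def StronglySurjective (L : Type u) [LinearOrder L] : Prop :=
  ∀ K : Set L, K.Nonempty → ∃ f : L → K, Monotone f ∧ Function.Surjective f

/-- Some countable subset of `L` is dense in the order topology of `L`. -/
def Separable (L : Type u) [LinearOrder L] : Prop :=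
  ∃ D : Set L, D.Countable ∧ @Dense L (Preorder.topology L) D

lemma lex_le {A B : Type*} [LinearOrder A] [LinearOrder B] (p q : A ×ₗ B) :
    p ≤ q ↔ (ofLex p).1 < (ofLex q).1 ∨ (ofLex p).1 = (ofLex q).1 ∧ (ofLex p).2 ≤ (ofLex q).2 :=
  Prod.Lex.le_iff

lemma lex_lt {A B : Type*} [LinearOrder A] [LinearOrder B] (p q : A ×ₗ B) :
    p < q ↔ (ofLex p).1 < (ofLex q).1 ∨ (ofLex p).1 = (ofLex q).1 ∧ (ofLex p).2 < (ofLex q).2 :=
  Prod.Lex.lt_iff

lemma dual {L : Type u} [LinearOrder L] (h : StronglySurjective L) : StronglySurjective Lᵒᵈ := by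
  intro K hK
  obtain ⟨f, hf1, hf2⟩ := h K hK
  exact ⟨f, fun a b hab => hf1 hab, hf2⟩

/-- Every nonempty subset of a strongly surjective order has countable cofinality. -/
lemma cofinal {L : Type u} [LinearOrder L] (h : StronglySurjective L) (F : Set L)
    (hF : F.Nonempty) : ∃ c : ℕ → F, Monotone c ∧ ∀ y, ∃ n, y ≤ c n := by
  have key : ∃ c : ℕ → F, ∀ y, ∃ n, y ≤ c n := by
    by_cases hm : ∃ m : F, ∀ y, y ≤ m
    · obtain ⟨m, hm⟩ := hm
      exact ⟨fun _ => m, fun y => ⟨0, hm y⟩⟩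
    push Not at hm
    have : NoMaxOrder F := ⟨hm⟩
    have : Nonempty F := hF.to_subtype
    obtain ⟨a, ha⟩ := Nat.exists_strictMono F
    obtain ⟨g, hg1, hg2⟩ := h (range fun n => (a n : L)) (range_nonempty _)
    obtain ⟨f, hf1, hf2⟩ := h F hF
    choose l hl using fun n => hg2 ⟨a n, n, rfl⟩
    refine ⟨fun n => f (l n), fun y => ?_⟩
    obtain ⟨x, rfl⟩ := hf2 y
    obtain ⟨m, hm⟩ := (g x).2
    refine ⟨m + 1, hf1 (hg1.reflect_lt ?_).le⟩
    rw [hl]
    change (g x : L) < a (m + 1)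
    rw [← hm]
    exact ha (Nat.lt_succ_self m)
  obtain ⟨c, hc⟩ := key
  exact ⟨partialSups c, (partialSups c).monotone, fun y =>
    (hc y).imp fun n hn => hn.trans (le_partialSups c n)⟩

/-- An order with a monotone map whose range is countable, dense and without endpoints maps onto
every nonempty countable order. -/
lemma onto_of_range {M N K : Type*} [LinearOrder M] [LinearOrder N] [LinearOrder K] [Nonempty M]
    [Countable K] [Nonempty K] (ψ : M → N) (hψ : Monotone ψ) (hc : (range ψ).Countable)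
    (h1 : ∀ a, ∃ b, ψ a < ψ b) (h2 : ∀ a, ∃ b, ψ b < ψ a)
    (h3 : ∀ a b, ψ a < ψ b → ∃ c, ψ a < ψ c ∧ ψ c < ψ b) :
    ∃ g : M → K, Monotone g ∧ Function.Surjective g := by
  have : Countable (range ψ) := hc
  have : Nonempty (range ψ) := (range_nonempty ψ).to_subtype
  have : NoMaxOrder (range ψ) := ⟨by
    rintro ⟨_, a, rfl⟩
    obtain ⟨b, hb⟩ := h1 a
    exact ⟨⟨_, b, rfl⟩, hb⟩⟩
  have : NoMinOrder (range ψ) := ⟨by
    rintro ⟨_, a, rfl⟩
    obtain ⟨b, hb⟩ := h2 a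
    exact ⟨⟨_, b, rfl⟩, hb⟩⟩
  have : DenselyOrdered (range ψ) := ⟨by
    rintro ⟨_, a, rfl⟩ ⟨_, b, rfl⟩ hab
    obtain ⟨c, hc1, hc2⟩ := h3 a b hab
    exact ⟨⟨_, c, rfl⟩, hc1, hc2⟩⟩
  have : Countable (K ×ₗ ℚ) := inferInstanceAs (Countable (K × ℚ))
  have : Nonempty (K ×ₗ ℚ) := inferInstanceAs (Nonempty (K × ℚ))
  have : DenselyOrdered (K ×ₗ ℚ) := ⟨by
    intro p q hpq
    rcases (lex_lt p q).1 hpq with h | ⟨h, h'⟩
    · exact ⟨toLex ((ofLex p).1, (ofLex p).2 + 1), (lex_lt _ _).2 (Or.inr ⟨rfl, by simp⟩),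
        (lex_lt _ _).2 (Or.inl h)⟩
    · obtain ⟨r, hr1, hr2⟩ := exists_between h'
      exact ⟨toLex ((ofLex p).1, r), (lex_lt _ _).2 (Or.inr ⟨rfl, hr1⟩),
        (lex_lt _ _).2 (Or.inr ⟨h, hr2⟩)⟩⟩
  obtain ⟨e⟩ := Order.iso_of_countable_dense (range ψ) (K ×ₗ ℚ)
  refine ⟨fun a => (ofLex (e ⟨ψ a, a, rfl⟩)).1, fun a b hab => ?_, fun k => ?_⟩
  · have h4 : e ⟨ψ a, a, rfl⟩ ≤ e ⟨ψ b, b, rfl⟩ := e.monotone (hψ hab)
    rcases (lex_le _ _).1 h4 with h | h
    · exact h.le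
    · exact h.1.le
  · obtain ⟨⟨_, a, rfl⟩, ha⟩ := e.surjective (toLex (k, 0))
    exact ⟨a, by beta_reduce; rw [ha]; rfl⟩

lemma exists_floor {F : Type u} [LinearOrder F] (c d : ℕ → F) (hc : Monotone c) (hd : Antitone d)
    (hc' : ∀ y, ∃ n, y ≤ c n) (hd' : ∀ y, ∃ n, d n ≤ y) (y : F) :
    ∃ z ∈ range c ∪ range d, z ≤ y ∧ ∀ w ∈ range c ∪ range d, w ≤ y → w ≤ z := by
  classical
  by_cases hy : y ∈ range c ∪ range d
  · exact ⟨y, hy, le_rfl, fun w _ hw => hw⟩
  obtain ⟨n, hn⟩ := hc' y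
  obtain ⟨m, hm⟩ := hd' y
  let T : Finset F := ((Finset.range n).image c ∪ (Finset.range (m + 1)).image d).filter (· ≤ y)
  have hmT : d m ∈ T := by
    simp only [T, Finset.mem_filter, Finset.mem_union, Finset.mem_image, Finset.mem_range]
    exact ⟨Or.inr ⟨m, by omega, rfl⟩, hm⟩
  have hz := Finset.max'_mem T ⟨_, hmT⟩
  have hz' := hz
  simp only [T, Finset.mem_filter, Finset.mem_union, Finset.mem_image, Finset.mem_range] at hz'
  refine ⟨T.max' ⟨_, hmT⟩, ?_, hz'.2, ?_⟩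
  · rcases hz'.1 with ⟨k, _, hk⟩ | ⟨k, _, hk⟩
    · exact Or.inl ⟨k, hk⟩
    · exact Or.inr ⟨k, hk⟩
  · rintro _ (⟨k, rfl⟩ | ⟨k, rfl⟩) hw
    · by_cases hk : k < n
      · apply Finset.le_max'
        simp only [T, Finset.mem_filter, Finset.mem_union, Finset.mem_image, Finset.mem_range]
        exact ⟨Or.inl ⟨k, hk, rfl⟩, hw⟩
      · exact absurd (Or.inl ⟨k, le_antisymm hw (hn.trans (hc (not_lt.1 hk)))⟩) hy
    · by_cases hk : k < m + 1
      · apply Finset.le_max'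
        simp only [T, Finset.mem_filter, Finset.mem_union, Finset.mem_image, Finset.mem_range]
        exact ⟨Or.inr ⟨k, hk, rfl⟩, hw⟩
      · exact (hd (by omega : m ≤ k)).trans (Finset.le_max' _ _ hmT)

lemma times_onto {F : Type u} [LinearOrder F] {K : Type} [LinearOrder K] [Countable K] [Nonempty K]
    (c d : ℕ → F) (hc : Monotone c) (hd : Antitone d)
    (hc' : ∀ y, ∃ n, y ≤ c n) (hd' : ∀ y, ∃ n, d n ≤ y) :
    ∃ g : F ×ₗ ℚ → K, Monotone g ∧ Function.Surjective g := by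
  classical
  set D : Set F := range c ∪ range d with hD
  choose r hr1 hr2 hr3 using exists_floor c d hc hd hc' hd'
  have hrD : ∀ y ∈ D, r y = y := fun y hy => le_antisymm (hr2 y) (hr3 y y hy le_rfl)
  have hrm : Monotone r := fun a b hab => hr3 b _ (hr1 a) ((hr2 a).trans hab)
  let s : F → ℚ → ℚ := fun y q => if y ∈ D then (if ∀ z, z ≤ y then q else min q 0) else 0
  have hsm : ∀ y, Monotone (s y) := by
    intro y q q' h
    simp only [s]
    split_ifs
    · exact h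
    · exact min_le_min_right _ h
    · exact le_rfl
  have hs0 : ∀ y q, ¬ (∀ z, z ≤ y) → s y q ≤ 0 := by
    intro y q h
    simp only [s, if_neg h]
    split_ifs
    · exact min_le_right _ _
    · exact le_rfl
  have hs1 : ∀ y ∈ D, ∀ q ≤ 0, s y q = q := by
    intro y hy q hq
    simp only [s, if_pos hy]
    split_ifs
    · rfl
    · exact min_eq_left hq
  have hs2 : ∀ y ∈ D, ∀ y' q q', r y' = y → q ≤ s y' q' → s y q = q := by
    intro y hy y' q q' h hq
    by_cases hm : ∀ z, z ≤ y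
    · simp only [s, if_pos hy, if_pos hm]
    · refine hs1 y hy q (hq.trans ?_)
      by_cases hy' : y' ∈ D
      · have : y' = y := by rw [← h, hrD y' hy']
        exact hs0 y' q' (this ▸ hm)
      · simp only [s, if_neg hy', le_refl]
  let ψ : F ×ₗ ℚ → F ×ₗ ℚ := fun p => toLex (r (ofLex p).1, s (ofLex p).1 (ofLex p).2)
  have : Nonempty (F ×ₗ ℚ) := ⟨toLex (c 0, 0)⟩
  refine onto_of_range ψ ?_ ?_ ?_ ?_ ?_
  · intro p q hpq
    rcases (lex_le p q).1 hpq with h | ⟨h, h'⟩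
    · rcases (hrm h.le).lt_or_eq with h1 | h1
      · exact (lex_le _ _).2 (Or.inl h1)
      · refine (lex_le _ _).2 (Or.inr ⟨h1, ?_⟩)
        have h2 : (ofLex q).1 ∉ D := fun h2 => by
          rw [hrD _ h2] at h1
          exact absurd (h1 ▸ hr2 (ofLex p).1) (not_le.2 h)
        change s (ofLex p).1 (ofLex p).2 ≤ s (ofLex q).1 (ofLex q).2
        rw [show s (ofLex q).1 (ofLex q).2 = 0 by simp only [s, if_neg h2]]
        exact hs0 _ _ fun h3 => absurd (h3 _) (not_le.2 h)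
    · refine (lex_le _ _).2 (Or.inr ⟨congrArg r h, ?_⟩)
      change s (ofLex p).1 (ofLex p).2 ≤ s (ofLex q).1 (ofLex q).2
      rw [h]
      exact hsm _ h'
  · have h1 : D.Countable := (countable_range c).union (countable_range d)
    refine ((h1.prod (countable_univ (α := ℚ))).image toLex).mono ?_
    rintro _ ⟨p, rfl⟩
    exact ⟨_, ⟨hr1 _, trivial⟩, rfl⟩
  · intro p
    by_cases hm : ∀ z, z ≤ r (ofLex p).1
    · refine ⟨toLex (r (ofLex p).1, s (ofLex p).1 (ofLex p).2 + 1), (lex_lt _ _).2 (Or.inr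
        ⟨(hrD _ (hr1 _)).symm, ?_⟩)⟩
      change s (ofLex p).1 (ofLex p).2 < s (r (ofLex p).1) (s (ofLex p).1 (ofLex p).2 + 1)
      rw [show s (r (ofLex p).1) (s (ofLex p).1 (ofLex p).2 + 1) = s (ofLex p).1 (ofLex p).2 + 1 by
        simp only [s, if_pos (show r (ofLex p).1 ∈ D from hr1 _), if_pos hm]]
      exact lt_add_one _
    · push Not at hm
      obtain ⟨z, hz⟩ := hm
      obtain ⟨n, hn⟩ := hc' z
      refine ⟨toLex (c n, 0), (lex_lt _ _).2 (Or.inl ?_)⟩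
      change r (ofLex p).1 < r (c n)
      rw [hrD (c n) (Or.inl ⟨n, rfl⟩)]
      exact hz.trans_le hn
  · intro p
    refine ⟨toLex (r (ofLex p).1, s (ofLex p).1 (ofLex p).2 - 1), (lex_lt _ _).2 (Or.inr
      ⟨hrD _ (hr1 _), ?_⟩)⟩
    change s (r (ofLex p).1) (s (ofLex p).1 (ofLex p).2 - 1) < s (ofLex p).1 (ofLex p).2
    rw [hs2 _ (hr1 _) (ofLex p).1 _ (ofLex p).2 rfl (by linarith)]
    exact sub_one_lt _
  · intro p q hpq
    rcases (lex_lt _ _).1 hpq with h | ⟨h, h'⟩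
    · refine ⟨toLex (r (ofLex q).1, s (ofLex q).1 (ofLex q).2 - 1), (lex_lt _ _).2 (Or.inl ?_),
        (lex_lt _ _).2 (Or.inr ⟨hrD _ (hr1 _), ?_⟩)⟩
      · change r (ofLex p).1 < r (r (ofLex q).1)
        rw [hrD _ (hr1 _)]
        exact h
      · change s (r (ofLex q).1) (s (ofLex q).1 (ofLex q).2 - 1) < s (ofLex q).1 (ofLex q).2
        rw [hs2 _ (hr1 _) (ofLex q).1 _ (ofLex q).2 rfl (by linarith)]
        exact sub_one_lt _
    · obtain ⟨v, hv1, hv2⟩ := exists_between h'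
      have h4 : s (r (ofLex q).1) v = v := hs2 _ (hr1 _) (ofLex q).1 _ (ofLex q).2 rfl hv2.le
      refine ⟨toLex (r (ofLex q).1, v), (lex_lt _ _).2 (Or.inr ⟨?_, ?_⟩),
        (lex_lt _ _).2 (Or.inr ⟨hrD _ (hr1 _), ?_⟩)⟩
      · change r (ofLex p).1 = r (r (ofLex q).1)
        rw [hrD _ (hr1 _)]
        exact h
      · change s (ofLex p).1 (ofLex p).2 < s (r (ofLex q).1) v
        rw [h4]
        exact hv1
      · change s (r (ofLex q).1) v < s (ofLex q).1 (ofLex q).2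
        rw [h4]
        exact hv2

lemma fibre {L : Type u} [LinearOrder L] (h : StronglySurjective L) (F : Set L) (hF : F.Nonempty)
    (K : Set ℚ) (hK : K.Nonempty) :
    ∃ g : L → ℚ → ℚ, (∀ y ∈ F, ∀ q, g y q ∈ K) ∧
      (∀ y ∈ F, ∀ y' ∈ F, ∀ q q', toLex (y, q) ≤ toLex (y', q') → g y q ≤ g y' q') ∧
      ∀ k ∈ K, ∃ y ∈ F, ∃ q, g y q = k := by
  classical
  obtain ⟨c, hc, hc'⟩ := cofinal h F hF
  obtain ⟨d, hd, hd'⟩ := cofinal (dual h) F hF
  have : Nonempty K := hK.to_subtype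
  obtain ⟨g, hg1, hg2⟩ := times_onto (F := F) (K := K) c d hc (fun a b hab => hd hab) hc' hd'
  refine ⟨fun y q => if hy : y ∈ F then g (toLex (⟨y, hy⟩, q)) else 0, ?_, ?_, ?_⟩
  · intro y hy q
    simp only [dif_pos hy]
    exact (g _).2
  · intro y hy y' hy' q q' hle
    simp only [dif_pos hy, dif_pos hy']
    apply hg1
    rcases (lex_le _ _).1 hle with h1 | ⟨h1, h2⟩
    · exact (lex_le _ _).2 (Or.inl h1)
    · exact (lex_le _ _).2 (Or.inr ⟨Subtype.ext h1, h2⟩)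
  · intro k hk
    obtain ⟨p, hp⟩ := hg2 ⟨k, hk⟩
    refine ⟨(ofLex p).1, (ofLex p).1.2, (ofLex p).2, ?_⟩
    simp only [dif_pos (ofLex p).1.2]
    exact congrArg Subtype.val hp

lemma times_ss {L : Type u} [LinearOrder L] (h : StronglySurjective L) :
    StronglySurjective (L ×ₗ ℚ) := by
  intro K hK
  obtain ⟨f, hf1, hf2⟩ := h ((fun p : L ×ₗ ℚ => (ofLex p).1) '' K) (hK.image _)
  have key := fun x : ((fun p : L ×ₗ ℚ => (ofLex p).1) '' K) =>
    fibre h {y | f y = x} (hf2 x) {q | toLex (x.1, q) ∈ K} (by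
      obtain ⟨_, p, hp, rfl⟩ := x
      exact ⟨(ofLex p).2, hp⟩)
  choose g hg1 hg2 hg3 using key
  refine ⟨fun p => ⟨toLex (f (ofLex p).1, g (f (ofLex p).1) (ofLex p).1 (ofLex p).2),
    hg1 _ _ rfl _⟩, fun p q hpq => ?_, fun k => ?_⟩
  · have h1 : (ofLex p).1 ≤ (ofLex q).1 := by
      rcases (lex_le _ _).1 hpq with h1 | h1
      · exact h1.le
      · exact h1.1.le
    rcases (hf1 h1).lt_or_eq with h2 | h2
    · exact (lex_le _ _).2 (Or.inl h2)
    · refine (lex_le _ _).2 (Or.inr ⟨congrArg Subtype.val h2, ?_⟩)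
      change g (f (ofLex p).1) (ofLex p).1 (ofLex p).2 ≤ g (f (ofLex q).1) (ofLex q).1 (ofLex q).2
      rw [← h2]
      exact hg2 _ _ rfl _ h2.symm _ _ hpq
  · obtain ⟨y, hy, q, hq⟩ := hg3 ⟨(ofLex k.1).1, k.1, k.2, rfl⟩ (ofLex k.1).2 k.2
    refine ⟨toLex (y, q), Subtype.ext ?_⟩
    have hy' : f y = ⟨(ofLex k.1).1, k.1, k.2, rfl⟩ := hy
    change toLex ((f y : L), g (f y) y q) = k.1
    rw [hy', hq]
    rfl

/-- If `L` is an uncountable strongly surjective linear order, then the lexicographic product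
`L × ℚ` (every point of `L` replaced by a copy of `ℚ`) is an uncountable strongly surjective
linear order that is not separable. -/
theorem result (L : Type u) [LinearOrder L] (hu : Uncountable L) (h : StronglySurjective L) :
    Uncountable (L ×ₗ ℚ) ∧ StronglySurjective (L ×ₗ ℚ) ∧ ¬ Separable (L ×ₗ ℚ) := by
  refine ⟨inferInstanceAs (Uncountable (L × ℚ)), times_ss h, ?_⟩
  rintro ⟨D, hD1, hD2⟩
  let _ : TopologicalSpace (L ×ₗ ℚ) := Preorder.topology _
  have : OrderTopology (L ×ₗ ℚ) := ⟨rfl⟩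
  have h1 : (fun p : L ×ₗ ℚ => (ofLex p).1) '' D = univ := by
    refine eq_univ_of_forall fun x => ?_
    obtain ⟨p, hp1, hp2⟩ := hD2.exists_mem_open (isOpen_Ioo (a := toLex (x, 0)) (b := toLex (x, 2)))
      ⟨toLex (x, 1), (lex_lt _ _).2 (Or.inr ⟨rfl, by simp⟩), (lex_lt _ _).2 (Or.inr ⟨rfl, by simp⟩)⟩
    refine ⟨p, hp1, ?_⟩
    rcases (lex_lt _ _).1 hp2.1 with h2 | h2 <;> rcases (lex_lt _ _).1 hp2.2 with h3 | h3
    · exact absurd (h2.trans h3) (lt_irrefl _)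
    · exact h3.1
    · exact h2.1.symm
    · exact h3.1
  have h2 := hD1.image fun p : L ×ₗ ℚ => (ofLex p).1
  rw [h1] at h2
  exact not_countable_univ h2

end Pool.Agent.Results.MP_af603d_lc.TimesRationals
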